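import Pool.Agent.H73.GWT.Stmts

/-! # Board gwt, row OKT: transfer of windows -/

set_option autoImplicit false

open Classical

namespace GWT

variable {ι G V : Type*} [Fintype ι] [Group G] [MulAction G V] (C : Code ι G V)

theorem OKT : OKTStmt C := by
  intro w z z' F
  induction F with
  | nil => intro b R R' _ _; trivial
  | cons f F ih =>
    intro b R R' h hp
    obtain ⟨h1, h2, h3, h4, h5⟩ := h
    have hs : C.d C.o (W C w (full F b) • C.c f.1 • C.o) = pos C w f.1 (full F b) := rfl
    have hstart := hp _ h2 (by rw [hs]; omega)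
    have hend := hp _ h3 (by rw [h4]; exact h1)
    refine ⟨by rw [← h4]; exact hend.2, hstart.1, hend.1, h4, ?_⟩
    exact ih b _ _ h5 fun p hp1 hp2 => ⟨(hp p hp1 (by omega)).1, hp2⟩

end GWT
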